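import Mathlib

open Finset

namespace H11.DivKLower

/-- `A ⊆ [1,n]` and no member of `A` is divisible by `k` other members. -/
def Adm (k n : ℕ) (A : Finset ℕ) : Prop :=
  A ⊆ Icc 1 n ∧ ∀ a ∈ A, (A.filter fun b => b ≠ a ∧ b ∣ a).card < k

/-- `F_k(n)`. -/
noncomputable def F (k n : ℕ) : ℕ := sSup {m | ∃ A, Adm k n A ∧ A.card = m}

theorem upper {k n : ℕ} {A : Finset ℕ} (h : Adm k n A) : A.card ≤ n - n / 2 ^ k := by
  let R : ℕ → Finset ℕ := fun a => A.filter fun b => b < a ∧ ordCompl[2] b = ordCompl[2] a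
  have pos : ∀ a ∈ A, 0 < a := fun a ha => (mem_Icc.1 (h.1 ha)).1
  have hv : ∀ a b : ℕ, ordCompl[2] b = ordCompl[2] a → b < a →
      b.factorization 2 < a.factorization 2 := fun a b e hl => by
    by_contra hc
    have h1 := Nat.ordProj_mul_ordCompl_eq_self a 2
    have h2 := Nat.ordProj_mul_ordCompl_eq_self b 2
    have h3 := Nat.mul_le_mul_right (ordCompl[2] a) (Nat.pow_le_pow_right two_pos (not_lt.1 hc))
    rw [e] at h2
    omega
  have hk : ∀ a ∈ A, (R a).card < k := fun a ha => lt_of_le_of_lt (card_le_card fun b hb => by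
    obtain ⟨h1, h2, h3⟩ := mem_filter.1 hb
    refine mem_filter.2 ⟨h1, h2.ne, ?_⟩
    rw [← Nat.ordProj_mul_ordCompl_eq_self a 2, ← Nat.ordProj_mul_ordCompl_eq_self b 2, h3]
    exact Nat.mul_dvd_mul_right (pow_dvd_pow _ (hv a b h3 h2).le) _) (h.2 a ha)
  have hr : ∀ a, (R a).card ≤ a.factorization 2 := fun a => by
    rw [← card_range (a.factorization 2)]
    refine card_le_card_of_injOn (fun b => b.factorization 2) (fun b hb => ?_) fun b hb c hc e => ?_
    · obtain ⟨-, h2, h3⟩ := mem_filter.1 hb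
      exact mem_coe.2 (mem_range.2 (hv a b h3 h2))
    · have h3 := (mem_filter.1 hb).2.2.trans (mem_filter.1 hc).2.2.symm
      have e' : b.factorization 2 = c.factorization 2 := e
      rw [← Nat.ordProj_mul_ordCompl_eq_self b 2, ← Nat.ordProj_mul_ordCompl_eq_self c 2, h3, e']
  have hf : ∀ a ∈ A, (2 ^ (R a).card * ordCompl[2] a).factorization 2 = (R a).card := fun a ha => by
    rw [Nat.factorization_mul (by positivity) (Nat.ordCompl_pos 2 (pos a ha).ne').ne']
    simp [Nat.factorization_ordCompl, Nat.prime_two.factorization]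
  have hlt : ∀ a ∈ A, ∀ b ∈ A, ordCompl[2] b = ordCompl[2] a → b < a → (R b).card < (R a).card :=
    fun a ha b hb e hl => card_lt_card ⟨fun c hc => by
      obtain ⟨h1, h2, h3⟩ := mem_filter.1 hc
      exact mem_filter.2 ⟨h1, h2.trans hl, h3.trans e⟩, fun hs =>
      lt_irrefl b (mem_filter.1 (hs (mem_filter.2 ⟨hb, hl, e⟩))).2.1⟩
  have hc : ((Ioc 0 n).filter fun x => ¬ 2 ^ k ∣ x).card = n - n / 2 ^ k := by
    have h1 := card_filter_add_card_filter_not (s := Ioc 0 n) (fun x => 2 ^ k ∣ x)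
    rw [Nat.Ioc_filter_dvd_card_eq_div, Nat.card_Ioc] at h1
    omega
  rw [← hc]
  refine card_le_card_of_injOn (fun a => 2 ^ (R a).card * ordCompl[2] a) (fun a ha => ?_)
    fun a ha b hb e => ?_
  · have hp : 0 < 2 ^ (R a).card * ordCompl[2] a :=
      Nat.mul_pos (by positivity) (Nat.ordCompl_pos 2 (pos a ha).ne')
    refine mem_coe.2 (mem_filter.2 ⟨mem_Ioc.2 ⟨hp, le_trans ?_ (mem_Icc.1 (h.1 ha)).2⟩, fun hd => ?_⟩)
    · exact (Nat.mul_le_mul_right _ (Nat.pow_le_pow_right two_pos (hr a))).trans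
        (Nat.ordProj_mul_ordCompl_eq_self a 2).le
    · have := (Nat.prime_two.pow_dvd_iff_le_factorization hp.ne').1 hd
      rw [hf a ha] at this
      exact absurd (hk a ha) (not_lt.2 this)
  · have e0 : 2 ^ (R a).card * ordCompl[2] a = 2 ^ (R b).card * ordCompl[2] b := e
    have e1 : (R a).card = (R b).card := by rw [← hf a ha, e0, hf b hb]
    rw [e1] at e0
    have e2 := Nat.eq_of_mul_eq_mul_left (by positivity) e0
    rcases lt_trichotomy a b with l | l | l
    · exact absurd e1 (hlt b hb a ha e2 l).ne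
    · exact l
    · exact absurd e1.symm (hlt a ha b hb e2.symm l).ne

theorem lower {k : ℕ} (hk : 1 ≤ k) (n : ℕ) : Adm k n (Ioc (n / (k + 1)) n) := by
  refine ⟨fun a ha => mem_Icc.2 ⟨Nat.succ_le_of_lt (lt_of_le_of_lt (Nat.zero_le _)
    (mem_Ioc.1 ha).1), (mem_Ioc.1 ha).2⟩, fun a ha => ?_⟩
  have ha0 : 0 < a := lt_of_le_of_lt (Nat.zero_le _) (mem_Ioc.1 ha).1
  refine lt_of_le_of_lt (card_le_card_of_injOn (t := Icc 2 k) (fun b => a / b) (fun b hb => ?_)
    fun b hb c hc e => ?_) (by rw [Nat.card_Icc]; omega)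
  · obtain ⟨h1, h2, c, rfl⟩ := mem_filter.1 hb
    have h3 := (Nat.div_lt_iff_lt_mul (Nat.succ_pos k)).1 (mem_Ioc.1 h1).1
    have hb0 : 0 < b := Nat.pos_of_mul_pos_right ha0
    have h4 : c < k + 1 := Nat.lt_of_mul_lt_mul_left ((mem_Ioc.1 ha).2.trans_lt h3)
    have h5 : c ≠ 0 := by rintro rfl; simp at ha0
    have h6 : c ≠ 1 := by rintro rfl; simp at h2
    simp only [mem_coe, mem_Icc, Nat.mul_div_cancel_left _ hb0]
    omega
  · have e' : a / b = a / c := e
    rw [← Nat.div_div_self (mem_filter.1 hb).2.2 ha0.ne', e',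
      Nat.div_div_self (mem_filter.1 hc).2.2 ha0.ne']

end H11.DivKLower

namespace Pool.Agent.Results.MP_573265_nt.Lower

open H11.DivKLower

theorem aux (k n : ℕ) (hk : 1 ≤ k) : n - n / (k + 1) ≤ F k n ∧ F k n ≤ n - n / 2 ^ k := by
  have hb : ∀ m ∈ {m | ∃ A, Adm k n A ∧ A.card = m}, m ≤ n - n / 2 ^ k := by
    rintro _ ⟨A, hA, rfl⟩; exact upper hA
  exact ⟨le_csSup ⟨_, hb⟩ ⟨_, lower hk n, Nat.card_Ioc _ _⟩, csSup_le ⟨_, _, lower hk n, rfl⟩ hb⟩

theorem result (k n : ℕ) (hk : 1 ≤ k) : n - n / (k + 1) ≤ F k n :=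
  (aux k n hk).1

end Pool.Agent.Results.MP_573265_nt.Lower
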